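import Pool.Agent.Y638.RF.Xor
import Pool.Agent.Y638.WF.Lower
import Pool.Agent.Y638.WF.Max

set_option autoImplicit false

/-! # Products `u_iᵀ M v_i` over `ZMod 2` and integral formulas -/

namespace Pool.Agent.R617.WFX

open Finset Pool.Agent.TH697.Row
open Pool.Agent.TH697.Form (IsProb)
open Pool.Agent.Y638.WF
open Pool.Agent.Y638.RF.Xor (Item product enc ask product_enc code cut sum_cut sum_eq_card)

variable {n c w v : ℕ}

theorem asks (i : Fin n) :
    Asks (Fin n × Fin n) 0 (fun _ => True) (product n) (some i) := by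
  classical
  refine asks_of (Set.range (fun t : Fin n × Fin n => ask t)) (fun _ => 0) (fun t _ => ask t) enc
    ?_ ?_ ?_ ?_
  · exact fun t z => ⟨t, rfl⟩
  · exact fun t z z' _ => rfl
  · exact fun _ _ _ => trivial
  · have h : ∀ (t : Fin n × Fin n) (z : Fin n × Fin n → Bool),
        product n (Function.update (enc z) (some i) (ask t)) = z t := fun t z => product_enc i t z
    simp only [h, ne_eq, not_true_eq_false, filter_false, card_empty]
    simp

/-- the arithmetic -/
theorem arith {n c w v l L g s : ℝ} (hn : 32 ≤ n) (hc : 1 ≤ c) (hw : 1 ≤ w) (hv : 1 ≤ v)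
    (hl0 : 1 ≤ l) (hl : 4 * l ≤ n ^ 2 / 24) (hL : L ≤ v + 2) (hg : g ≤ 4 * l) (hs : 0 ≤ s)
    (h : n * ((49 / 600 - 0) * n ^ 2 - g) ≤ w * (1 + 12 * L + 4 * g + 2 * (w - 1) * c) * s) :
    n ^ 3 ≤ 1000 * w * (v + c * w + l) * s := by
  have h1 : n ^ 2 / 25 ≤ (49 / 600 - 0) * n ^ 2 - g := by linarith
  have h2 : n * (n ^ 2 / 25) ≤ n * ((49 / 600 - 0) * n ^ 2 - g) :=
    mul_le_mul_of_nonneg_left h1 (by linarith)
  have h3 : w * (1 + 12 * L + 4 * g + 2 * (w - 1) * c) ≤ 37 * (w * (v + c * w + l)) := by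
    have h5 : 0 ≤ (w - 1) * c := mul_nonneg (by linarith) (by linarith)
    calc w * (1 + 12 * L + 4 * g + 2 * (w - 1) * c) ≤ w * (37 * (v + c * w + l)) := by
          apply mul_le_mul_of_nonneg_left _ (by linarith)
          nlinarith
      _ = _ := by ring
  have h4 := mul_le_mul_of_nonneg_right h3 hs
  have e1 : n * (n ^ 2 / 25) = n ^ 3 / 25 := by ring
  rw [e1] at h2
  have h5 : 0 ≤ w * (v + c * w + l) * s := by positivity
  nlinarith

theorem logb_small : Real.logb 2 (2 * (2 ^ v : ℕ) + 1) ≤ v + 2 := by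
  have h1 : (1 : ℝ) ≤ (2 : ℝ) ^ v := one_le_pow₀ (by norm_num)
  have h2 : (2 * ((2 ^ v : ℕ) : ℝ) + 1) ≤ (2 : ℝ) ^ (v + 2) := by
    push_cast
    rw [pow_add]
    linarith
  refine (Real.logb_le_logb_of_le (by norm_num : (1 : ℝ) < 2) (by positivity) h2).trans ?_
  rw [Real.logb_pow, Real.logb_self_eq_one (by norm_num)]
  push_cast
  linarith

theorem bound (hn : 32 ≤ n) (hc : 1 ≤ c) (hw : 1 ≤ w) (hv : 1 ≤ v) {Ω : Type} [Fintype Ω]
    (μ : Ω → ℝ) (hμ : IsProb μ) (s : ℕ)
    (F : Ω → Program (Option (Fin n)) (Item n) w (2 ^ c) (2 ^ v) (fun _ => True) s)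
    (hF : ApproximatesOn μ (fun ω => (F ω).eval) (fun _ => True) (product n)) :
    (n : ℝ) ^ 3 ≤ 1000 * w * (v + c * w + Real.logb 2 n) * s := by
  classical
  have hw' : (1 : ℝ) ≤ w := by exact_mod_cast hw
  have hc' : (1 : ℝ) ≤ c := by exact_mod_cast hc
  have hv' : (1 : ℝ) ≤ v := by exact_mod_cast hv
  have hs0 : (0 : ℝ) ≤ s := Nat.cast_nonneg s
  have hn' : (32 : ℝ) ≤ n := by exact_mod_cast hn
  obtain ⟨hl, hl1⟩ := Pool.Agent.TH457.Ary.OuMv.logb_n hn
  obtain ⟨l, hl'⟩ : ∃ l, l = Real.logb 2 (n : ℝ) := ⟨_, rfl⟩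
  by_cases hsn : n ^ 3 ≤ s
  · rw [← hl'] at hl hl1 ⊢
    have h1 : (n : ℝ) ^ 3 ≤ s := by exact_mod_cast hsn
    have h3 : (0 : ℝ) ≤ c * w := by positivity
    have h2 : (1 : ℝ) ≤ w * (v + c * w + l) := one_le_mul_of_one_le_of_one_le hw' (by linarith)
    nlinarith
  have h := program_lower μ hμ (2 ^ v) s (fun _ => True) F (product n) hF
    Nat.one_le_two_pow Nat.one_le_two_pow hw 0
    ((univ : Finset (Fin n)).map Function.Embedding.some) (T := Fin n × Fin n) (by
      intro a ha
      rw [mem_map] at ha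
      obtain ⟨i, -, rfl⟩ := ha
      exact asks i)
  rw [card_map, card_univ, Fintype.card_fin, Pool.Agent.TH457.Ary.OuMv.card_T] at h
  have e1 : Real.logb 2 ((2 ^ c : ℕ) : ℝ) = c := by
    push_cast
    exact Pool.Agent.TH457.Ary.OuMv.logb_two_pow' c
  rw [e1] at h
  refine arith (L := Real.logb 2 (2 * (2 ^ v : ℕ) + 1)) (g := Real.logb 2 (s + 2)) hn' hc' hw' hv'
    hl1 hl logb_small ?_ hs0 h
  have h1 : s + 2 ≤ n ^ 4 := by
    have h2 : s < n ^ 3 := by omega
    have h3 : 32 * n ^ 3 ≤ n ^ 4 := by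
      calc 32 * n ^ 3 ≤ n * n ^ 3 := Nat.mul_le_mul_right _ hn
        _ = n ^ 4 := by ring
    have h6 : 1 ≤ n ^ 3 := Nat.one_le_pow _ _ (by omega)
    omega
  have h2 : (s : ℝ) + 2 ≤ (n : ℝ) ^ 4 := by exact_mod_cast h1
  have h3 := Real.logb_le_logb_of_le (by norm_num : (1 : ℝ) < 2) (by linarith) h2
  rw [Real.logb_pow] at h3
  exact_mod_cast h3

/-! ## multiplication by words of length `c` -/

/-- the `a`-th part of the `j`-th row -/
noncomputable def part (n c : ℕ) (i j : Fin n) (a : ℕ) :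
    Word (Option (Fin n)) (Item n) 2 (2 ^ (c + 1)) where
  item := ![some i, none]
  view := fun k => match k with
    | ⟨0, _⟩ => fun (v : (Fin n → ZMod 2) × (Fin n → ZMod 2)) => code c (v.1 j, cut c v.2 a)
    | ⟨1, _⟩ => fun (M : Fin n → Fin n → ZMod 2) => code c (1, cut c (M j) a)
  out := fun e => if ((code c).symm (e 0)).1 *
    ∑ l, ((code c).symm (e 1)).2 l * ((code c).symm (e 0)).2 l = 1 then 1 else 0

theorem part_eval (i j : Fin n) (a : ℕ) (x : ∀ i, Item n i) :
    (Fml.word (part n c i j a)).eval x = if (x (some i)).1 j *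
      ∑ l, cut c (x none j) a l * cut c (x (some i)).2 a l = 1 then 1 else 0 := by
  have e0 : ∀ v : ZMod 2 × (Fin c → ZMod 2), (code c).symm (code c v) = v :=
    fun v => (code c).symm_apply_apply v
  have e1 : (Fml.word (part n c i j a)).eval x = if ((code c).symm (code c ((x (some i)).1 j,
      cut c (x (some i)).2 a))).1 *
    ∑ l, ((code c).symm (code c (1, cut c (x none j) a))).2 l *
      ((code c).symm (code c ((x (some i)).1 j, cut c (x (some i)).2 a))).2 l = 1 then 1 else 0 :=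
    rfl
  rw [e1, e0, e0]

theorem upper (hc : 1 ≤ c) (V : ℕ) (hV : 1 ≤ V) :
    ∃ F : Fml (Option (Fin n)) (Item n) 2 (2 ^ (c + 1)),
    F.size = 2 * n ^ 2 * (n / c + 1) ∧ F.Small V (fun _ => True) ∧
      ∀ x, F.accepts x = product n x := by
  classical
  have hV' : (1 : ℤ) ≤ V := by exact_mod_cast hV
  obtain ⟨e, -⟩ : ∃ e : Fin (n * (n / c + 1)) ≃ Fin n × Fin (n / c + 1), True :=
    ⟨finProdFinEquiv.symm, trivial⟩
  obtain ⟨F, h1, h2, h3⟩ := exists_max (w := 2) (q := 2 ^ (c + 1)) (D := Item n) V (fun _ => True)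
    (univ : Finset (Fin n))
    (fun i : Fin n => Fml.sym (n * (n / c + 1)) (fun k => if k % 2 = 1 then 1 else 0)
      (fun p => Fml.word (part n c i (e p).1 (e p).2)))
    (fun i => by
      constructor
      · intro p x _
        rw [part_eval]
        split_ifs
        · rw [abs_one]; exact hV'
        · rw [abs_zero]; omega
      · intro x _
        have h : ∀ k : ℕ, |(if k % 2 = 1 then (1 : ℤ) else 0)| ≤ V := by
          intro k
          split_ifs
          · rw [abs_one]; exact hV'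
          · rw [abs_zero]; omega
        exact h _)
  have hpos : ∀ (x : ∀ i, Item n i) (i : Fin n),
      (0 < (Fml.sym (n * (n / c + 1)) (fun k => if k % 2 = 1 then (1 : ℤ) else 0)
          (fun p => Fml.word (part n c i (e p).1 (e p).2))).eval x ↔
        ∑ j : Fin n, ∑ k : Fin n, (x (some i)).1 j * (x none) j k * (x (some i)).2 k = 1) := by
    intro x i
    have h3 : ∑ j : Fin n, ∑ k : Fin n, (x (some i)).1 j * (x none) j k * (x (some i)).2 k =
        ∑ p : Fin (n * (n / c + 1)), (x (some i)).1 (e p).1 *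
          ∑ l, cut c (x none (e p).1) (e p).2 l * cut c (x (some i)).2 (e p).2 l := by
      rw [Equiv.sum_comp e (fun p : Fin n × Fin (n / c + 1) => (x (some i)).1 p.1 *
          ∑ l, cut c (x none p.1) p.2 l * cut c (x (some i)).2 p.2 l), Fintype.sum_prod_type]
      refine sum_congr rfl fun j _ => ?_
      simp only
      rw [← mul_sum, sum_cut hc, mul_sum]
      exact sum_congr rfl fun k _ => mul_assoc _ _ _
    rw [h3, sum_eq_card]
    have h4 : (Fml.sym (n * (n / c + 1)) (fun k => if k % 2 = 1 then (1 : ℤ) else 0)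
        (fun p => Fml.word (part n c i (e p).1 (e p).2))).eval x =
        if (univ.filter (fun p : Fin (n * (n / c + 1)) => (x (some i)).1 (e p).1 *
          ∑ l, cut c (x none (e p).1) (e p).2 l *
            cut c (x (some i)).2 (e p).2 l = 1)).card % 2 = 1 then 1 else 0 := by
      unfold Fml.eval
      congr 3
      funext p
      simp only
      rw [part_eval]
      split_ifs with h
      · simp [h]
      · simp [h]
    rw [h4]
    obtain ⟨N, hN⟩ : ∃ N, N = (univ.filter (fun p : Fin (n * (n / c + 1)) =>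
      (x (some i)).1 (e p).1 * ∑ l, cut c (x none (e p).1) (e p).2 l *
        cut c (x (some i)).2 (e p).2 l = 1)).card := ⟨_, rfl⟩
    rw [← hN]
    have h5 : (N : ZMod 2) = 1 ↔ N % 2 = 1 := by
      have := ZMod.natCast_eq_natCast_iff' N 1 2
      simpa using this
    rw [h5]
    split_ifs with h <;> simp [h]
  refine ⟨F, ?_, h2, fun x => ?_⟩
  · rw [h1]
    simp only [Fml.size, sum_const, card_univ, Fintype.card_fin, smul_eq_mul]
    ring
  · unfold Fml.accepts product
    rw [Bool.eq_iff_iff, decide_eq_true_iff, decide_eq_true_iff, h3]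
    simp only [hpos, mem_univ, true_and]

end Pool.Agent.R617.WFX
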